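import Pool.Agent.helper62.VQ.SpecE
import Pool.Agent.helper62.RS.GLC
import Pool.Agent.helper92.RS.GMG
import Pool.Agent.helper83.RS.GLI
import Pool.Agent.helper9.RS.GRI
import Pool.Agent.helper58.RS.GFD

/-! # Row vqe:MSR of MP_07c750_an (ergodicity) -/

set_option autoImplicit false

open scoped MatrixGroups ContDiff Topology UpperHalfPlane
open UpperHalfPlane MeasureTheory Filter Set

namespace Pool.Agent.VQE

open Pool.Agent.RS

theorem MSR_GFD : GFD_stmt := GFD GLC (GMG GLC) (GLI GLC (GMG GLC)) (GRI GLC (GMG GLC) (GLI GLC (GMG GLC)))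

theorem MSR_secondCountable : SecondCountableTopology SL(2, ℝ) := GLC.2.1

theorem MSR_bound {Γ : Subgroup SL(2, ℝ)} {L : ℝ} {p q : SL(2, ℝ) → ℝ} {f : ℝ → SL(2, ℝ) → SL(2, ℝ)} {h : SL(2, ℝ) → ℝ}
    (hT : Tf Γ L h) (T : ℝ) (hT0 : 0 < T) (g : SL(2, ℝ)) : |avf f h T g| ≤ 1 := by
  unfold avf
  rw [abs_mul, abs_of_pos (inv_pos.2 hT0)]
  have h1 : ‖∫ t in (0 : ℝ)..T, h (f t g)‖ ≤ 1 * |T - 0| :=
    intervalIntegral.norm_integral_le_of_norm_le_const fun t _ => by
      rw [Real.norm_eq_abs]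
      exact hT.bd _
  rw [Real.norm_eq_abs, sub_zero, one_mul, abs_of_pos hT0] at h1
  calc T⁻¹ * |∫ t in (0 : ℝ)..T, h (f t g)| ≤ T⁻¹ * T := by
        exact mul_le_mul_of_nonneg_left h1 (inv_pos.2 hT0).le
    _ = 1 := inv_mul_cancel₀ hT0.ne'

theorem MSR_cont {Γ : Subgroup SL(2, ℝ)} {L : ℝ} {p q : SL(2, ℝ) → ℝ} {f : ℝ → SL(2, ℝ) → SL(2, ℝ)} {h : SL(2, ℝ) → ℝ}
    (hf : Flw p q f) (hT : Tf Γ L h) (T : ℝ) : Continuous (avf f h T) := by
  unfold avf
  refine continuous_const.mul ?_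
  have h1 : Continuous (Function.uncurry fun (g : SL(2, ℝ)) (t : ℝ) => h (f t g)) :=
    hT.cont.comp (hf.cont.comp (continuous_snd.prodMk continuous_fst))
  exact intervalIntegral.continuous_parametric_intervalIntegral_of_continuous' h1 0 T

theorem MSR_mean {Γ : Subgroup SL(2, ℝ)} {F : Set ℍ} {L : ℝ} {p q : SL(2, ℝ) → ℝ} {f : ℝ → SL(2, ℝ) → SL(2, ℝ)}
    {h : SL(2, ℝ) → ℝ} (hRDM : RDM_stmt) (hΓ : QU.SurfaceGroup Γ) (hN : QU.NiceDom Γ F) (hf : FlG Γ p q f) (hT : Tf Γ L h)
    (n : ℝ) (hn : 0 < n) : ∫ g in dG F, avf f h n g ∂mG = ∫ g in dG F, h g ∂mG := by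
  haveI : SecondCountableTopology SL(2, ℝ) := MSR_secondCountable
  obtain ⟨⟨hdm, -, hfin, -⟩, -⟩ := MSR_GFD Γ F hΓ hN
  haveI : IsFiniteMeasure (mG.restrict (dG F)) := ⟨by rwa [Measure.restrict_apply_univ]⟩
  obtain ⟨hr1, hr2, hr3, hr4, hr5, hr6⟩ := hRDM Γ F hΓ hN
  have hfm : ∀ s, Continuous (f s) := fun s => hf.cont.comp (continuous_const.prodMk continuous_id)
  have h1 : ∀ s : ℝ, ∫ g in dG F, h (f s g) ∂mG = ∫ g in dG F, h g ∂mG := by
    intro s
    have h2 := hr6 (f s) (f (-s)) (hfm s).measurable (hfm (-s)).measurable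
      (fun g => by rw [← hf.add, neg_add_cancel, hf.zero]) (fun g => by rw [← hf.add, add_neg_cancel, hf.zero])
      (fun γ g => hf.inv γ s g) (hf.mp s)
    have h3 : ∀ g, h (f s g) = h (red Γ F (f s g)) := by
      intro g
      obtain ⟨γ, hγ⟩ := hr4 (f s g)
      rw [hγ, hT.inv]
    have h4 : ∫ g in dG F, h (red Γ F (f s g)) ∂mG = ∫ g in dG F, h g ∂mG := by
      have h5 := MeasureTheory.integral_map (μ := mG.restrict (dG F)) (φ := fun g => red Γ F (f s g)) h2.measurable.aemeasurable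
        (f := h) (by
          rw [h2.map_eq]
          exact hT.cont.measurable.aestronglyMeasurable)
      rw [h2.map_eq] at h5
      exact h5.symm
    rw [← h4]
    exact integral_congr_ae (Eventually.of_forall fun g => h3 g)
  have h6 : ∫ g in dG F, (∫ t in (0 : ℝ)..n, h (f t g)) ∂mG = ∫ t in (0 : ℝ)..n, (∫ g in dG F, h (f t g) ∂mG) := by
    have h7 : ∀ g, (∫ t in (0 : ℝ)..n, h (f t g)) = ∫ t in Ioc 0 n, h (f t g) := fun g =>
      intervalIntegral.integral_of_le hn.le
    have h8 : (∫ t in (0 : ℝ)..n, (∫ g in dG F, h (f t g) ∂mG)) = ∫ t in Ioc 0 n, (∫ g in dG F, h (f t g) ∂mG) :=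
      intervalIntegral.integral_of_le hn.le
    rw [h8]
    simp only [h7]
    refine MeasureTheory.integral_integral_swap (μ := mG.restrict (dG F)) (ν := volume.restrict (Ioc 0 n))
      (f := fun g t => h (f t g)) ?_
    have h9 : Continuous (Function.uncurry fun (g : SL(2, ℝ)) (t : ℝ) => h (f t g)) :=
      hT.cont.comp (hf.cont.comp (continuous_snd.prodMk continuous_fst))
    refine Integrable.of_bound (h9.measurable.aestronglyMeasurable) 1 ?_
    refine Eventually.of_forall fun x => ?_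
    rw [Real.norm_eq_abs]
    exact hT.bd _
  unfold avf
  rw [integral_const_mul, h6]
  simp only [h1]
  rw [intervalIntegral.integral_const, sub_zero, smul_eq_mul, inv_mul_cancel_left₀ hn.ne']

theorem MSR_proof (hVNE : VNE_stmt) (hHOF : HOF_stmt) (hHOC : HOC_stmt) (hRDM : RDM_stmt) : MSR_stmt := by
  intro Γ F δ L p q f h hΓ hN h0 h1 hL hFl hf hT
  haveI : SecondCountableTopology SL(2, ℝ) := MSR_secondCountable
  obtain ⟨⟨hdm, -, hfin, -⟩, -⟩ := MSR_GFD Γ F hΓ hN
  haveI : IsFiniteMeasure (mG.restrict (dG F)) := ⟨by rwa [Measure.restrict_apply_univ]⟩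
  obtain ⟨u, ns, hu, hns, hae, hL2⟩ := hVNE Γ F p q f h L hΓ hN hf hT
  have h2 := hHOF Γ δ L p q f h u ns h0 h1 hL hFl hf hT hu hns hae
  obtain ⟨c, hc⟩ := hHOC u hu h2
  have h3 : ∀ n : ℕ, ∫ g in dG F, (avf f h n g - u g) ^ 2 ∂mG = ∫ g in dG F, (avf f h n g - c) ^ 2 ∂mG := by
    intro n
    refine integral_congr_ae ?_
    have h4 := ae_restrict_of_ae (s := dG F) hc
    filter_upwards [h4] with g hg
    rw [hg]
  have h5 : Tendsto (fun n : ℕ => ∫ g in dG F, (avf f h n g - c) ^ 2 ∂mG) atTop (𝓝 0) := by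
    simpa only [h3] using hL2
  have hI : ∀ n : ℕ, 1 ≤ n → ∀ k : ℝ, Integrable (fun g => (avf f h n g - k)) (mG.restrict (dG F)) ∧
      Integrable (fun g => (avf f h n g - k) ^ 2) (mG.restrict (dG F)) := by
    intro n hn k
    have hn' : (0 : ℝ) < n := by exact_mod_cast hn
    have hcn : Continuous (fun g => avf f h n g - k) := (MSR_cont hf.toFlw hT n).sub continuous_const
    have hb : ∀ g, |avf f h n g - k| ≤ 1 + |k| := fun g =>
      (abs_sub _ _).trans (by have := MSR_bound (p := p) (q := q) (f := f) hT n hn' g; linarith)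
    refine ⟨Integrable.of_bound hcn.measurable.aestronglyMeasurable (1 + |k|) (Eventually.of_forall fun g => ?_),
      Integrable.of_bound (hcn.pow 2).measurable.aestronglyMeasurable ((1 + |k|) ^ 2) (Eventually.of_forall fun g => ?_)⟩
    · rw [Real.norm_eq_abs]
      exact hb g
    · rw [Real.norm_eq_abs, abs_pow]
      exact pow_le_pow_left₀ (abs_nonneg _) (hb g) 2
  have hle : ∀ n : ℕ, 1 ≤ n → ∫ g in dG F, (avf f h n g - mnG F h) ^ 2 ∂mG ≤ ∫ g in dG F, (avf f h n g - c) ^ 2 ∂mG := by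
    intro n hn
    have hn' : (0 : ℝ) < n := by exact_mod_cast hn
    set μ0 := mnG F h with hμ0
    have h6 : ∀ g, (avf f h n g - c) ^ 2 = ((avf f h n g - μ0) ^ 2 + 2 * (μ0 - c) * (avf f h n g - μ0)) + (μ0 - c) ^ 2 := by
      intro g
      ring
    have h7 : ∫ g in dG F, (avf f h n g - μ0) ∂mG = 0 := by
      have h8 : Integrable (fun g => avf f h n g) (mG.restrict (dG F)) := by
        have := (hI n hn 0).1
        simpa using this
      rw [integral_sub h8 (integrable_const _), MSR_mean hRDM hΓ hN hf hT n hn', integral_const]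
      have h9 : (mG.restrict (dG F)).real univ = (mG (dG F)).toReal := by
        rw [Measure.real, Measure.restrict_apply_univ]
      rw [h9, smul_eq_mul, hμ0]
      unfold mnG
      by_cases h10 : (mG (dG F)).toReal = 0
      · rw [h10]
        have h11 : mG (dG F) = 0 := by
          rcases (ENNReal.toReal_eq_zero_iff _).1 h10 with h12 | h12
          · exact h12
          · exact absurd h12 hfin.ne
        rw [Measure.restrict_eq_zero.2 h11]
        simp
      · rw [mul_div_cancel₀ _ h10, sub_self]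
    simp only [h6]
    rw [integral_add, integral_add, integral_const_mul, h7, mul_zero, add_zero]
    · have h13 : 0 ≤ ∫ g in dG F, (μ0 - c) ^ 2 ∂mG := integral_nonneg fun g => sq_nonneg _
      linarith
    · exact (hI n hn μ0).2
    · exact (hI n hn μ0).1.const_mul _
    · exact (hI n hn μ0).2.add ((hI n hn μ0).1.const_mul _)
    · exact integrable_const _
  unfold MSC
  refine squeeze_zero' (Eventually.of_forall fun n => integral_nonneg fun g => sq_nonneg _) ?_ h5
  filter_upwards [eventually_ge_atTop 1] with n hn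
  exact hle n hn

end Pool.Agent.VQE
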