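import Pool.Agent.helper62.VQ.SpecE

/-! # Row vqe:STP of MP_07c750_an (the stable leaf as a function) -/

set_option autoImplicit false

open scoped MatrixGroups ContDiff Topology UpperHalfPlane
open UpperHalfPlane MeasureTheory Filter Set

namespace Pool.Agent.VQE

open Pool.Agent.RS

theorem STP_spec (hSHO : SHO_stmt) {δ : ℝ} {p q : SL(2, ℝ) → ℝ} {f : ℝ → SL(2, ℝ) → SL(2, ℝ)} (h0 : 0 ≤ δ)
    (h1 : δ ≤ 1 / 10000) (hF : Fld δ p q) (hf : Flw p q f) (g : SL(2, ℝ)) (b : ℝ) (hb : |b| ≤ 1 / 8) :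
    ∃ x y : ℝ → ℝ, SM p q f g x y ∧ x 0 = b ∧ y 0 = st p q f g b := by
  obtain ⟨x, y, hS, hx⟩ := hSHO δ p q f h0 h1 hF hf g b hb
  have h2 : ∃ c : ℝ, ∃ x y : ℝ → ℝ, SM p q f g x y ∧ x 0 = b ∧ y 0 = c := ⟨y 0, x, y, hS, hx, rfl⟩
  exact Classical.epsilon_spec h2

theorem STP_dg {b c : ℝ} (hb : |b| ≤ 1 / 8) (hc : |c| ≤ 1 / 8) :
    (dg b c).1 = !![√(1 + b * c), b; c, √(1 + b * c)] := by
  have h1 : |b * c| ≤ 1 / 8 * (1 / 8) := by
    rw [abs_mul]
    exact mul_le_mul hb hc (abs_nonneg _) (by norm_num)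
  have h2 : 0 ≤ 1 + b * c := by
    have := (abs_le.1 h1).1
    linarith
  have h3 : dg b c = ⟨!![√(1 + b * c), b; c, √(1 + b * c)], by
      rw [Matrix.det_fin_two_of, Real.mul_self_sqrt h2]; ring⟩ := dif_pos h2
  exact congrArg Subtype.val h3

theorem STP_proof (hNMB : NMB_stmt) (hSHO : SHO_stmt) (hSLP : SLP_stmt) : STP_stmt := by
  intro δ p q f h0 h1 hF hf
  have hE := fun g b hb => STP_spec hSHO h0 h1 hF hf g b hb
  have hst : ∀ (g : SL(2, ℝ)) (b : ℝ), |b| ≤ 1 / 8 → |st p q f g b| ≤ |b| / 4 := by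
    intro g b hb
    obtain ⟨x, y, hS, hx, hy⟩ := hE g b hb
    have := hS.cone 0 le_rfl
    rwa [hx, hy] at this
  have hlip : ∀ (g E : SL(2, ℝ)) (b b' : ℝ), |b| ≤ 1 / 8 → |b'| ≤ 1 / 8 →
      |st p q f g b - st p q f (g * E) b'| ≤ |b - b'| / 4 + 750 * δ * |b| * nm E := by
    intro g E b b' hb hb'
    obtain ⟨x, y, hS, hx, hy⟩ := hE g b hb
    obtain ⟨x', y', hS', hx', hy'⟩ := hE (g * E) b' hb'
    have := hSLP δ p q f h0 h1 hF hf g E x y x' y' hS hS'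
    rwa [hx, hy, hx', hy'] at this
  refine ⟨fun g b hb => ⟨hst g b hb, hE g b hb⟩, hlip, ?_⟩
  have hcont : ContinuousOn (fun x : SL(2, ℝ) × ℝ => st p q f x.1 x.2) (univ ×ˢ Icc (-(1 / 8)) (1 / 8)) := by
    intro x0 hx0
    have hx0' : |x0.2| ≤ 1 / 8 := abs_le.2 ⟨hx0.2.1, hx0.2.2⟩
    have hnc : Continuous nm := hNMB.2.2.2.2.2.2.1
    have h3 : Continuous (fun x : SL(2, ℝ) × ℝ => |x0.2 - x.2| / 4 + 750 * δ * |x0.2| * nm (x0.1⁻¹ * x.1)) := by
      have h4 : Continuous (fun x : SL(2, ℝ) × ℝ => nm (x0.1⁻¹ * x.1)) :=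
        hnc.comp (continuous_const.mul continuous_fst)
      have h5 : Continuous (fun x : SL(2, ℝ) × ℝ => |x0.2 - x.2|) := by fun_prop
      exact (h5.div_const 4).add (continuous_const.mul h4)
    have h6 : Tendsto (fun x : SL(2, ℝ) × ℝ => |x0.2 - x.2| / 4 + 750 * δ * |x0.2| * nm (x0.1⁻¹ * x.1))
        (𝓝[univ ×ˢ Icc (-(1 / 8)) (1 / 8)] x0) (𝓝 0) := by
      have h7 := h3.continuousAt (x := x0)
      have h8 : |x0.2 - x0.2| / 4 + 750 * δ * |x0.2| * nm (x0.1⁻¹ * x0.1) = 0 := by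
        have h9 : nm (1 : SL(2, ℝ)) = 0 := (hNMB.2.1 1).2 rfl
        rw [inv_mul_cancel, h9]
        simp
      have h10 : Tendsto (fun x : SL(2, ℝ) × ℝ => |x0.2 - x.2| / 4 + 750 * δ * |x0.2| * nm (x0.1⁻¹ * x.1))
          (𝓝 x0) (𝓝 0) := by
        have h11 := h7.tendsto
        rwa [h8] at h11
      exact h10.mono_left nhdsWithin_le_nhds
    rw [ContinuousWithinAt, tendsto_iff_dist_tendsto_zero]
    refine squeeze_zero' (Eventually.of_forall fun x => dist_nonneg) ?_ h6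
    filter_upwards [self_mem_nhdsWithin] with x hx
    have hx' : |x.2| ≤ 1 / 8 := abs_le.2 ⟨hx.2.1, hx.2.2⟩
    have h12 := hlip x0.1 (x0.1⁻¹ * x.1) x0.2 x.2 hx0' hx'
    rw [mul_inv_cancel_left] at h12
    rw [Real.dist_eq, abs_sub_comm]
    exact h12
  have hdg : ContinuousOn (fun x : SL(2, ℝ) × ℝ => dg x.2 (st p q f x.1 x.2)) (univ ×ˢ Icc (-(1 / 8)) (1 / 8)) := by
    have hind : Topology.IsInducing (fun g : SL(2, ℝ) => g.1) := Topology.IsInducing.subtypeVal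
    rw [hind.continuousOn_iff]
    have h13 : ContinuousOn (fun x : SL(2, ℝ) × ℝ => (!![√(1 + x.2 * st p q f x.1 x.2), x.2; st p q f x.1 x.2,
        √(1 + x.2 * st p q f x.1 x.2)] : Matrix (Fin 2) (Fin 2) ℝ)) (univ ×ˢ Icc (-(1 / 8)) (1 / 8)) := by
      have h14 : ContinuousOn (fun x : SL(2, ℝ) × ℝ => x.2) (univ ×ˢ Icc (-(1 / 8)) (1 / 8)) :=
        continuous_snd.continuousOn
      have h15 : ContinuousOn (fun x : SL(2, ℝ) × ℝ => √(1 + x.2 * st p q f x.1 x.2))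
          (univ ×ˢ Icc (-(1 / 8)) (1 / 8)) :=
        Real.continuous_sqrt.comp_continuousOn (continuousOn_const.add (h14.mul hcont))
      refine continuousOn_pi.2 fun i => continuousOn_pi.2 fun j => ?_
      fin_cases i <;> fin_cases j
      · exact h15
      · exact h14
      · exact hcont
      · exact h15
    refine h13.congr fun x hx => ?_
    have hx' : |x.2| ≤ 1 / 8 := abs_le.2 ⟨hx.2.1, hx.2.2⟩
    have h16 := hst x.1 x.2 hx'
    exact STP_dg hx' (by linarith [abs_nonneg x.2])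
  unfold Sb
  exact continuous_fst.continuousOn.mul hdg

end Pool.Agent.VQE
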